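import Mathlib

set_option autoImplicit false

namespace Pool.Agent.Results.MP_4e651d_al.Order

open Set Topology Pointwise

variable {G : Type} [Group G] [TopologicalSpace G]

/-- `K` is a closed compactly generated subgroup. -/
def CG (K : Subgroup G) : Prop := IsClosed (K : Set G) ∧ ∃ C : Set G, IsCompact C ∧ Subgroup.closure C = K

/-- The discrete residual: the intersection of the open subgroups `O` with `kO = Ok` for all `k ∈ K`. -/
def Res (K : Subgroup G) : Subgroup G :=
  sInf {O : Subgroup G | IsOpen (O : Set G) ∧ ∀ k ∈ K, (k * ·) '' (O : Set G) = (· * k) '' (O : Set G)}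

/-- The residual order. -/
def RLe (K L : Subgroup G) : Prop := K ≤ Res L ∨ K = L

/-- The residual hierarchy `𝒦_α(G)`. -/
def Lev (α : Ordinal.{0}) (K : Subgroup G) : Prop :=
  (α = 0 ∧ K = ⊥) ∨ (α = 1 ∧ CG K ∧ Res K = ⊥) ∨
    (1 < α ∧ CG K ∧ ∀ L, CG L → RLe L K → L ≠ K → ∃ β, ∃ _ : β < α, Lev β L)
termination_by α

lemma res_le {K L : Subgroup G} (h : K ≤ Res L) : Res K ≤ Res L := sInf_le_sInf fun O hO => ⟨hO.1, fun k hk => by
  have := Subgroup.mem_sInf.1 (h hk) O hO
  ext x
  exact ⟨fun ⟨y, hy, e⟩ => ⟨x * k⁻¹, e ▸ O.mul_mem (O.mul_mem this hy) (O.inv_mem this), by simp⟩,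
    fun ⟨y, hy, e⟩ => ⟨k⁻¹ * x, e ▸ O.mul_mem (O.inv_mem this) (O.mul_mem hy this), by simp⟩⟩⟩

lemma res_bot [IsTopologicalGroup G] [T2Space G] [LocallyCompactSpace G] [TotallyDisconnectedSpace G] :
    Res (⊥ : Subgroup G) = ⊥ := by
  refine (Subgroup.eq_bot_iff_forall _).2 fun g hg => by_contra fun c => ?_
  obtain ⟨C, c1, c2, c3⟩ := exists_compact_subset (isOpen_compl_singleton (x := g)) (Ne.symm c)
  obtain ⟨W, w1, w2, w3⟩ := (loc_compact_Haus_tot_disc_of_zero_dim (H := G)).exists_subset_of_mem_open c2 isOpen_interior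
  obtain ⟨V, v1, v2⟩ := compact_open_separated_mul_right (c1.of_isClosed_subset w1.1 (w3.trans interior_subset)) w1.2
    subset_rfl
  let O : Subgroup G :=
    { carrier := {x | ∀ w, w * x ∈ W ↔ w ∈ W}
      one_mem' := fun w => by simp
      mul_mem' := fun a b w => by rw [← mul_assoc, b, a]
      inv_mem' := fun {x} a w => by rw [← a]; simp }
  have := Subgroup.mem_sInf.1 hg O ⟨O.isOpen_of_mem_nhds (g := 1) (by
    filter_upwards [v1, inv_mem_nhds_one G v1] with x h1 h2 w
    exact ⟨fun h => by simpa using v2 (mul_mem_mul h h2), fun h => v2 (mul_mem_mul h h1)⟩), by simp⟩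
  exact c3 (interior_subset (w3 (by simpa using (this 1).2 w2))) rfl

/-- If the residual rank of a t.d.l.c.s.c. group is well-defined, the residual order is a partial order. -/
theorem result (G : Type) [Group G] [TopologicalSpace G] [IsTopologicalGroup G] [T2Space G]
    [TotallyDisconnectedSpace G] [LocallyCompactSpace G] [SecondCountableTopology G]
    (h : ∀ K : Subgroup G, CG K → ∃ α < Ordinal.omega 1, Lev α K) :
    IsPartialOrder {K : Subgroup G // CG K} fun K L => RLe K.1 L.1 := by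
  have key : ∀ (α : Ordinal.{0}) (K L : Subgroup G), CG K → CG L → Lev α K → K ≤ Res L → L ≤ Res K → K = L := by
    intro α
    induction α using WellFoundedLT.induction with | ind α ih => ?_
    intro K L hK hL h0 h1 h2
    rw [Lev] at h0
    rcases h0 with ⟨-, rfl⟩ | ⟨-, -, h0⟩ | ⟨-, -, h0⟩
    · exact (le_bot_iff.1 (res_bot (G := G) ▸ h2)).symm
    · obtain rfl := le_bot_iff.1 (h0 ▸ h2)
      exact le_bot_iff.1 (res_bot (G := G) ▸ h1)
    · by_contra c
      obtain ⟨β, b1, b2⟩ := h0 L hL (Or.inl h2) (Ne.symm c)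
      exact c (ih β b1 L K hL hK b2 h2 h1).symm
  refine { refl := fun _ => Or.inr rfl, trans := ?_, antisymm := ?_ }
  · rintro a b c (h1 | h1) (h2 | h2)
    exacts [Or.inl (h1.trans (res_le h2)), Or.inl (h2 ▸ h1), Or.inl (h1 ▸ h2), Or.inr (h1.trans h2)]
  · rintro a b (h1 | h1) (h2 | h2)
    · obtain ⟨α, -, hα⟩ := h a.1 a.2
      exact Subtype.ext (key α _ _ a.2 b.2 hα h1 h2)
    exacts [Subtype.ext h2.symm, Subtype.ext h1, Subtype.ext h1]

end Pool.Agent.Results.MP_4e651d_al.Order
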